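import Pool.Agent.Hhelper17.AM.Defs
import Pool.Agent.Hhelper68.CS.GlueC

/-!
Geometry of the torus: a cluster meets at most 49 cells of its level (for helper17).
-/

set_option autoImplicit false

open Finset

namespace Pool.Agent.Hhelper41.AM

open Pool.Agent.Hhelper68.CS Pool.Agent.Hhelper96.PEPS Pool.Agent.Hhelper17.AM

/-- growth of the part of a connected set that is reached in `n` steps -/
theorem reach {N r : ℕ} [NeZero N] (a b : ℤ) {C : Finset (Site N)} {v0 : Site N} (hv0 : v0 ∈ C)
    (hC : ConnF (nb N (box a b r) (box a b r)) C) :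
    ∀ v ∈ C, ∃ i j : ℤ, |i| ≤ (C.card : ℤ) * r ∧ |j| ≤ (C.card : ℤ) * r ∧
      v = (v0.1 + (i : ZMod N), v0.2 + (j : ZMod N)) := by
  classical
  let P : ℕ → Site N → Prop := fun n v => ∃ i j : ℤ, |i| ≤ (n : ℤ) * r ∧ |j| ≤ (n : ℤ) * r ∧
      v = (v0.1 + (i : ZMod N), v0.2 + (j : ZMod N))
  have hmono : ∀ n v, P n v → P (n + 1) v := by
    rintro n v ⟨i, j, hi, hj, h⟩
    have hr : (0 : ℤ) ≤ (r : ℤ) := Int.natCast_nonneg r
    refine ⟨i, j, hi.trans ?_, hj.trans ?_, h⟩ <;> push_cast <;> nlinarith
  have hkey : ∀ n : ℕ, C.filter (P n) = C ∨ n + 1 ≤ (C.filter (P n)).card := by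
    intro n
    induction n with
    | zero =>
      right
      refine Finset.card_pos.2 ⟨v0, Finset.mem_filter.2 ⟨hv0, 0, 0, by simp, by simp, by simp⟩⟩
    | succ n ih =>
      rcases ih with ih | ih
      · left
        refine Finset.filter_true_of_mem (fun v hv => hmono n v ?_)
        rw [← ih] at hv
        exact (Finset.mem_filter.1 hv).2
      · by_cases hE : C.filter (P n) = C
        · left
          refine Finset.filter_true_of_mem (fun v hv => hmono n v ?_)
          rw [← hE] at hv
          exact (Finset.mem_filter.1 hv).2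
        · right
          have hne : (C.filter (P n)).Nonempty := Finset.card_pos.1 (by omega)
          have h1 : ¬ (∀ x ∈ C.filter (P n), ∀ y ∈ C, y ∈ nb N (box a b r) (box a b r) x →
              y ∈ C.filter (P n)) := fun hh => hE (hC.2 _ (Finset.filter_subset _ _) hne hh)
          push Not at h1
          obtain ⟨x, hx, y, hy, hxy, hyn⟩ := h1
          have hsub : C.filter (P n) ⊆ C.filter (P (n + 1)) := by
            intro v hv
            rw [Finset.mem_filter] at hv ⊢
            exact ⟨hv.1, hmono n v hv.2⟩
          have hy' : y ∈ C.filter (P (n + 1)) := by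
            rw [Finset.mem_filter]
            refine ⟨hy, ?_⟩
            obtain ⟨i, j, hi, hj, hxe⟩ := (Finset.mem_filter.1 hx).2
            unfold nb at hxy
            obtain ⟨-, p, hp, q, hq, he⟩ := Finset.mem_filter.1 hxy
            rw [mem_box] at hp hq
            unfold place at he
            have he1 : y.1 + (p.1 : ZMod N) = x.1 + (q.1 : ZMod N) := congrArg Prod.fst he
            have he2 : y.2 + (p.2 : ZMod N) = x.2 + (q.2 : ZMod N) := congrArg Prod.snd he
            refine ⟨i + (q.1 - p.1), j + (q.2 - p.2), ?_, ?_, ?_⟩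
            · rw [abs_le] at hi ⊢
              push_cast
              constructor <;> nlinarith [hp.1.1, hp.1.2, hq.1.1, hq.1.2]
            · rw [abs_le] at hj ⊢
              push_cast
              constructor <;> nlinarith [hp.2.1, hp.2.2, hq.2.1, hq.2.2]
            · have e1 : x.1 = v0.1 + (i : ZMod N) := congrArg Prod.fst hxe
              have e2 : x.2 = v0.2 + (j : ZMod N) := congrArg Prod.snd hxe
              refine Prod.ext ?_ ?_
              · show y.1 = v0.1 + ((i + (q.1 - p.1) : ℤ) : ZMod N)
                push_cast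
                rw [e1] at he1
                linear_combination he1
              · show y.2 = v0.2 + ((j + (q.2 - p.2) : ℤ) : ZMod N)
                push_cast
                rw [e2] at he2
                linear_combination he2
          have h2 : (C.filter (P n)).card < (C.filter (P (n + 1))).card :=
            Finset.card_lt_card ⟨hsub, fun hh => hyn (hh hy')⟩
          omega
  have hfin : C.filter (P C.card) = C := by
    rcases hkey C.card with h | h
    · exact h
    · have := Finset.card_le_card (Finset.filter_subset (P C.card) C)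
      omega
  intro v hv
  rw [← hfin] at hv
  exact (Finset.mem_filter.1 hv).2

/-- the cells of an interval of a circle -/
theorem cell_mem {N A : ℕ} [NeZero N] (hA : 1 ≤ A) (x0 : ZMod N) (i : ℤ) (hi : |i| < (A : ℤ)) :
    (x0 + (i : ZMod N)).val / A ∈
      ({x0.val / A - 1, x0.val / A, x0.val / A + 1, 0, (N - 1) / A - 1, (N - 1) / A} : Finset ℕ) := by
  have hN : 0 < N := Nat.pos_of_ne_zero (NeZero.ne N)
  set y := (x0 + (i : ZMod N)).val with hy
  have hyN : y < N := ZMod.val_lt _
  have hx0 : x0.val < N := ZMod.val_lt _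
  simp only [Finset.mem_insert, Finset.mem_singleton]
  -- congruence
  have hcong : ((y : ℤ) : ZMod N) = ((x0.val + i : ℤ) : ZMod N) := by
    push_cast
    rw [hy, ZMod.natCast_zmod_val, ZMod.natCast_zmod_val]
  have hdvd : (N : ℤ) ∣ (x0.val : ℤ) + i - y := by
    have := (ZMod.intCast_eq_intCast_iff_dvd_sub (y : ℤ) ((x0.val : ℤ) + i) N).1 hcong
    exact this
  obtain ⟨t, ht⟩ := hdvd
  rw [abs_lt] at hi
  by_cases hNA : N ≤ A
  · right; right; right; left
    exact Nat.div_eq_of_lt (by omega)
  · push Not at hNA
    have hNA' : (A : ℤ) < N := by exact_mod_cast hNA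
    have ht1 : t ≤ 1 := by
      by_contra hh
      push Not at hh
      have : (N : ℤ) * 2 ≤ N * t := by
        apply mul_le_mul_of_nonneg_left (by omega) (by omega)
      have h1 : (x0.val : ℤ) < N := by exact_mod_cast hx0
      have h2 : (0 : ℤ) ≤ y := Int.natCast_nonneg _
      linarith
    have ht2 : -1 ≤ t := by
      by_contra hh
      push Not at hh
      have : (N : ℤ) * t ≤ N * (-2) := by
        apply mul_le_mul_of_nonneg_left (by omega) (by omega)
      have h1 : (y : ℤ) < N := by exact_mod_cast hyN
      have h2 : (0 : ℤ) ≤ x0.val := Int.natCast_nonneg _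
      linarith
    have hcases : t = -1 ∨ t = 0 ∨ t = 1 := by omega
    rcases hcases with rfl | rfl | rfl
    · -- y = x0 + i + N : above
      have hy1 : (y : ℤ) = x0.val + i + N := by linarith
      have hge : N - 1 < y + A := by omega
      have hle : y ≤ N - 1 := by omega
      have h1 : y / A ≤ (N - 1) / A := Nat.div_le_div_right hle
      have h2 : (N - 1) / A ≤ y / A + 1 := by
        have : (N - 1) / A ≤ (y + A) / A := Nat.div_le_div_right hge.le
        rwa [Nat.add_div_right _ (by omega)] at this
      generalize y / A = q1 at h1 h2 ⊢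
      generalize (N - 1) / A = q2 at h1 h2 ⊢
      rcases Nat.eq_or_lt_of_le h1 with h3 | h3
      · right; right; right; right; right
        exact h3
      · right; right; right; right; left
        omega
    · have hy1 : (y : ℤ) = x0.val + i := by linarith
      have h1 : y ≤ x0.val + A := by omega
      have h2 : x0.val ≤ y + A := by omega
      have h3 : y / A ≤ x0.val / A + 1 := by
        have := Nat.div_le_div_right (c := A) h1
        rwa [Nat.add_div_right _ (by omega)] at this
      have h4 : x0.val / A ≤ y / A + 1 := by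
        have := Nat.div_le_div_right (c := A) h2
        rwa [Nat.add_div_right _ (by omega)] at this
      generalize y / A = q1 at h3 h4 ⊢
      generalize x0.val / A = q2 at h3 h4 ⊢
      rcases Nat.lt_trichotomy q1 q2 with h5 | h5 | h5
      · left
        omega
      · right; left
        exact h5
      · right; right; left
        omega
    · have hy1 : (y : ℤ) = x0.val + i - N := by linarith
      right; right; right; left
      refine Nat.div_eq_of_lt ?_
      have h1 : (x0.val : ℤ) < N := by exact_mod_cast hx0
      omega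

/-- **a cluster meets at most 49 cells of its level** -/
theorem NC_card {N r : ℕ} [NeZero N] (hr : 1 ≤ r) (a b : ℤ) (C : Finset (Site N))
    (hC : ConnF (nb N (box a b r) (box a b r)) C) :
    (NC (spW N (box a b r)) (cellT N r) C).card ≤ 49 := by
  classical
  obtain ⟨v0, hv0⟩ := hC.1
  set k := Nat.log 2 C.card with hk
  set A := 4 * r * 2 ^ k with hA
  have hCpos : 0 < C.card := Finset.card_pos.2 hC.1
  have hlt : C.card < 2 ^ (k + 1) := Nat.lt_pow_succ_log_self (by norm_num) _
  have hA1 : 1 ≤ A := by
    rw [hA]
    exact Nat.succ_le_of_lt (by positivity)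
  have hbig : (C.card : ℤ) * r + r ≤ (A : ℤ) := by
    have h1 : C.card + 1 ≤ 2 ^ (k + 1) := hlt
    have h2 : (C.card + 1) * r ≤ 2 ^ (k + 1) * r := Nat.mul_le_mul_right r h1
    have h3 : 2 ^ (k + 1) * r ≤ A := by
      rw [hA, pow_succ]
      nlinarith [Nat.mul_le_mul (le_refl r) (Nat.one_le_two_pow (n := k))]
    have h4 : (C.card + 1) * r ≤ A := h2.trans h3
    have h5 : (((C.card + 1) * r : ℕ) : ℤ) ≤ (A : ℤ) := by exact_mod_cast h4
    push_cast at h5
    linarith
  let X1 : ZMod N := v0.1 + (a : ZMod N)
  let X2 : ZMod N := v0.2 + (b : ZMod N)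
  let S1 : Finset ℕ := {X1.val / A - 1, X1.val / A, X1.val / A + 1, 0, (N - 1) / A - 1, (N - 1) / A}
  let S2 : Finset ℕ := {X2.val / A - 1, X2.val / A, X2.val / A + 1, 0, (N - 1) / A - 1, (N - 1) / A}
  have hsub : NC (spW N (box a b r)) (cellT N r) C ⊆
      ((S1 ×ˢ S2).image (fun x => (k, x.1, x.2))) := by
    intro c hc
    unfold NC at hc
    rw [Finset.mem_image] at hc
    obtain ⟨u, hu, rfl⟩ := hc
    unfold suppC at hu
    rw [Finset.mem_biUnion] at hu
    obtain ⟨v, hv, huv⟩ := hu
    unfold spW at huv
    rw [Finset.mem_image] at huv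
    obtain ⟨p, hp, rfl⟩ := huv
    rw [mem_box] at hp
    obtain ⟨i, j, hi, hj, hve⟩ := reach a b hv0 hC v hv
    rw [Finset.mem_image]
    refine ⟨((place N v p).1.val / A, (place N v p).2.val / A), ?_, ?_⟩
    · rw [Finset.mem_product]
      have e1 : v.1 = v0.1 + (i : ZMod N) := congrArg Prod.fst hve
      have e2 : v.2 = v0.2 + (j : ZMod N) := congrArg Prod.snd hve
      constructor
      · have h1 : (place N v p).1 = X1 + ((i + (p.1 - a) : ℤ) : ZMod N) := by
          show v.1 + (p.1 : ZMod N) = v0.1 + (a : ZMod N) + ((i + (p.1 - a) : ℤ) : ZMod N)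
          rw [e1]
          push_cast
          ring
        show (place N v p).1.val / A ∈ S1
        rw [h1]
        refine cell_mem hA1 X1 _ ?_
        rw [abs_le] at hi
        rw [abs_lt]
        constructor <;> linarith [hp.1.1, hp.1.2, hi.1, hi.2]
      · have h1 : (place N v p).2 = X2 + ((j + (p.2 - b) : ℤ) : ZMod N) := by
          show v.2 + (p.2 : ZMod N) = v0.2 + (b : ZMod N) + ((j + (p.2 - b) : ℤ) : ZMod N)
          rw [e2]
          push_cast
          ring
        show (place N v p).2.val / A ∈ S2
        rw [h1]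
        refine cell_mem hA1 X2 _ ?_
        rw [abs_le] at hj
        rw [abs_lt]
        constructor <;> linarith [hp.2.1, hp.2.2, hj.1, hj.2]
    · rfl
  have h6 : ∀ x y z w s t : ℕ, ({x, y, z, w, s, t} : Finset ℕ).card ≤ 6 :=
    fun x y z w s t => Finset.card_le_six
  calc (NC (spW N (box a b r)) (cellT N r) C).card
      ≤ ((S1 ×ˢ S2).image (fun x => (k, x.1, x.2))).card := Finset.card_le_card hsub
    _ ≤ (S1 ×ˢ S2).card := Finset.card_image_le
    _ = S1.card * S2.card := Finset.card_product _ _
    _ ≤ 6 * 6 := Nat.mul_le_mul (h6 _ _ _ _ _ _) (h6 _ _ _ _ _ _)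
    _ ≤ 49 := by norm_num

end Pool.Agent.Hhelper41.AM
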